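import Mathlib
import Pool.Agent.H.MP_a09116_an.A

open Set Filter Topology Complex Matrix
open scoped Matrix.Norms.L2Operator

namespace Pool.Agent.Results.MP_a09116_an.Counter

variable {n d : ℕ} (A : Fin d → Matrix (Fin n) (Fin n) ℂ) (b : Fin d → ℝ)

/-- The matrix `Σ (b_j - a_j - conj a_j) A_j`. -/
noncomputable def AA (a : Fin d → ℂ) : Matrix (Fin n) (Fin n) ℂ := ∑ j, (b j - a j - star (a j)) • A j

/-- `‖X‖ < 1` (operator norm) and `P X² + A X + P^* = 0` with `P = Σ a_j A_j`. -/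
def Sol (a : Fin d → ℂ) (X : Matrix (Fin n) (Fin n) ℂ) : Prop :=
  ‖X‖ < 1 ∧ (∑ j, a j • A j) * X ^ 2 + AA A b a * X + (∑ j, a j • A j)ᴴ = 0

/-- The real matrix in the definition of nondegeneracy. -/
noncomputable def G (a : Fin d → ℂ) (X : Matrix (Fin n) (Fin n) ℂ) (V : Fin n → ℂ) :
    Matrix (Fin d) (Fin d) ℝ :=
  Matrix.of fun j s => (∑' r : ℕ, star V ⬝ᵥ (Xᴴ ^ r * A j * (AA A b a)⁻¹ * A s * X ^ r) *ᵥ V).re

/-- The 1-jet map. -/
noncomputable def jet (X : (Fin d → ℂ) → Matrix (Fin n) (Fin n) ℂ) (p : (Fin d → ℂ) × (Fin n → ℂ)) :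
    (Fin n → ℂ) × (Fin d → ℝ) × (Fin d → ℝ) :=
  (p.2, fun j => (star p.2 ⬝ᵥ ((1 - (X p.1)ᴴ) * (∑' r : ℕ, (X p.1)ᴴ ^ r * A j * X p.1 ^ r) *
    (1 - X p.1)) *ᵥ p.2).re, fun j => (p.1 j).im)

open Pool.Agent.H.MP_a09116_an in
theorem result : ∃ (n d : ℕ) (A : Fin d → Matrix (Fin n) (Fin n) ℂ) (b : Fin d → ℝ),
    (∀ j, (A j).IsHermitian) ∧ IsUnit (∑ j, (b j : ℂ) • A j) ∧ ∀ δ > 0, ∃ a : Fin d → ℂ, ‖a‖ < δ ∧
      (∀ᶠ a' in 𝓝 a, IsUnit (AA A b a') ∧ ∃! X, Sol A b a' X) ∧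
      ∀ X : (Fin d → ℂ) → Matrix (Fin n) (Fin n) ℂ, (∀ᶠ a' in 𝓝 a, Sol A b a' (X a')) →
        (∃ V, (G A b a (X a) V).PosDef) ∧
        ∀ V D, HasFDerivAt (𝕜 := ℝ) (jet A X) D (a, V) → ¬ Function.Injective D := by
  have n : ∀ᶠ c in 𝓝 0, IsUnit (AA A b c) ∧ ∃! Y, Sol A b c Y := by
    simpa only [Sol, AA, sum] using near
  refine ⟨11, 9, A, b, herm, by simpa [AA] using n.self_of_nhds.1, fun δ hδ => ?_⟩
  have c : Continuous fun e : ℝ => a e 0 := ca.comp (continuous_id.prodMk continuous_const)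
  have z : a 0 0 = 0 := by ext i; fin_cases i <;> simp [a]
  have z' : X 0 0 = 0 := by simp [X, ← Matrix.ext_iff, Fin.forall_fin_succ]
  have x : ∀ᶠ p : ℝ × (Fin 5 → ℝ) in 𝓝 (0, 0), ‖X p.1 p.2‖ < 1 :=
    cX.norm.continuousAt.eventually_lt continuousAt_const (by simp [z'])
  obtain ⟨e, ⟨⟨h1, h2⟩, h3⟩, e0⟩ := (((((c.norm.continuousAt.eventually_lt continuousAt_const
    (by simpa [z] using hδ)).and ((c.tendsto' 0 0 z).eventually n.eventually_nhds)).and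
    x.curry_nhds).filter_mono nhdsWithin_le_nhds).and (self_mem_nhdsWithin (s := Ioi (0 : ℝ)))).exists
  refine ⟨a e 0, h1, h2, fun Y hY => ?_⟩
  have t : Tendsto (a e) (𝓝 0) (𝓝 (a e 0)) :=
    (ca.comp (continuous_const.prodMk continuous_id)).tendsto 0
  have k : ∀ᶠ k in 𝓝 0, Y (a e k) = X e k := by
    filter_upwards [t.eventually h2, t.eventually hY, h3] with k u v w
    exact u.2.unique v ⟨w, by simpa only [AA, sum] using eqn e k⟩
  refine ⟨⟨V e, ?_⟩, fun W D => sing (fun _ => rfl) (fun _ _ => rfl)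
    (fun j => (star W ⬝ᵥ A j *ᵥ W).re) (k.mono fun k h j hj => ?_)⟩
  · simpa only [G, AA, sum, inv, k.self_of_nhds, ts] using pos e0
  · have l := kill e k j hj
    have l' : (X e k)ᴴ * A j = 0 := by rw [← (herm j).eq, ← conjTranspose_mul, l, conjTranspose_zero]
    simp only [jet, h]
    rw [tsum_eq_single 0 fun r hr => by
      obtain ⟨r, rfl⟩ := Nat.exists_eq_succ_of_ne_zero hr
      rw [pow_succ' (X e k), ← Matrix.mul_assoc, Matrix.mul_assoc _ (A j), l]; simp]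
    simp [Matrix.sub_mul, Matrix.mul_sub, l, l']

end Pool.Agent.Results.MP_a09116_an.Counter
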